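import Pool.Agent.W924.MZ.LocC
import Pool.Agent.W61.MZ.Ker
import Pool.Agent.W858.MZ.Res2
import Pool.Agent.W32.MZ.Pow
import Pool.Agent.W917.MZ.CMP
import Pool.Agent.W721.MZ.Lip
import Pool.Agent.W32.GP.Tau
import Pool.Agent.W903.GP.CO
import Pool.Agent.W338.QS.Line
import Pool.Agent.W22.QS.Basic

set_option autoImplicit false

/-! The inputs from project MZ that are needed here. -/

namespace Pool.Agent.L7h13.MX

open Pool.Agent.W188.QS Pool.Agent.W188.GP Pool.Agent.W188.MZ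

theorem a_tau : StTau := Pool.Agent.W32.GPT.gp_tau
theorem a_co : StCo := Pool.Agent.W903.GP.CO.gp_co a_tau
theorem a_line : StLine := Pool.Agent.W338.QS.qs_line
theorem a_locc : StLocC := Pool.Agent.W924.MZ.mz_locc a_tau a_line Pool.Agent.W22.QS.qs_basic
  Pool.Agent.W61.MZ.mz_ker Pool.Agent.W858.MZ.mz_res2
theorem a_spc : StSpc := Pool.Agent.W721.MZ.mz_spc a_tau
theorem a_pow : StPow := Pool.Agent.W32.MZ.mz_pow a_spc a_tau
theorem a_cmp : StCmp := Pool.Agent.W917.MZ.CMP.mz_cmp a_locc a_pow a_spc a_tau a_co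

end Pool.Agent.L7h13.MX
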