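import Pool.Agent.L7h13.MX.Inp

/-!
# A local maximal inequality for zeta at the scale `1 / log T`, all exponents
-/

set_option autoImplicit false

open Complex MeasureTheory Set Filter Topology

namespace Pool.Agent.L7h13.MX

open Pool.Agent.W188.QS Pool.Agent.W188.GP Pool.Agent.W188.MZ

noncomputable section

/-- a local majorant of zeta at height `t`, at the scale `1 / log T` -/
structure Maj (T F t : ℝ) : Prop where
  nn : 0 ≤ F
  bd : ∀ s : ℂ, ‖s - cp t‖ ≤ 8 / Real.log T → ‖riemannZeta s‖ ≤ F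
  lip : ∀ s : ℂ, ‖s - cp t‖ ≤ 8 / Real.log T → ‖riemannZeta s - riemannZeta (cp t)‖ ≤ Real.log T * ‖s - cp t‖ * F

lemma maj_of (m : ℕ) (hm : 1 ≤ m) : ∃ C T₀ : ℝ, 0 < C ∧ ∀ T γ t : ℝ, T₀ ≤ T → T / 4 ≤ t → t ≤ 32 * T →
    Maj T (C * S2 m γ T t + T ^ (-(1 / 2 : ℝ))) t := by
  obtain ⟨C, T₀, hC, hT₀⟩ := a_locc m hm
  refine ⟨C, max T₀ (max 100 (Real.exp 1)), hC, fun T γ t₀ hT h1 h2 => ?_⟩
  have hTT : T₀ ≤ T := (le_max_left _ _).trans hT
  have hT100 : 100 ≤ T := (le_max_left _ _).trans ((le_max_right _ _).trans hT)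
  have hTe : Real.exp 1 ≤ T := (le_max_right _ _).trans ((le_max_right _ _).trans hT)
  have hT0 : 0 < T := by linarith
  have hL1 : 1 ≤ Real.log T := by
    rw [Real.le_log_iff_exp_le hT0]
    exact hTe
  set L := Real.log T with hLdef
  have hL0 : 0 < L := by linarith
  set B := C * S2 m γ T t₀ + T ^ (-(1 / 2 : ℝ)) with hBdef
  have hbd : ∀ s : ℂ, ‖s - cp t₀‖ ≤ 16 / L → ‖riemannZeta s‖ ≤ B := hT₀ T γ t₀ hTT h1 h2
  have hB0 : 0 ≤ B := (norm_nonneg _).trans (hbd (cp t₀) (by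
    rw [sub_self, norm_zero]; positivity))
  have h16 : 16 / L ≤ 16 := div_le_self (by norm_num) hL1
  have hdiff : ∀ s : ℂ, ‖s - cp t₀‖ ≤ 16 / L → DifferentiableAt ℂ riemannZeta s := by
    intro s hs
    apply differentiableAt_riemannZeta
    intro h1s
    have h3 : |(s - cp t₀).im| ≤ 16 := (Complex.abs_im_le_norm _).trans (hs.trans h16)
    rw [Complex.sub_im, Pool.Agent.W721.MZ.cp_im, h1s, Complex.one_im, zero_sub, abs_neg] at h3
    have := (le_abs_self t₀).trans h3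
    linarith
  have h8 : (0 : ℝ) < 8 / L := by positivity
  have hsum : 8 / L + 8 / L = 16 / L := by ring
  have hder : ∀ s ∈ Metric.closedBall (cp t₀) (8 / L), ‖deriv riemannZeta s‖ ≤ B * L / 8 := by
    intro s hs
    rw [mem_closedBall_iff_norm] at hs
    have hin : ∀ z : ℂ, ‖z - s‖ ≤ 8 / L → ‖z - cp t₀‖ ≤ 16 / L := by
      intro z hz
      calc ‖z - cp t₀‖ = ‖(z - s) + (s - cp t₀)‖ := by ring_nf
        _ ≤ ‖z - s‖ + ‖s - cp t₀‖ := norm_add_le _ _
        _ ≤ 8 / L + 8 / L := add_le_add hz hs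
        _ = 16 / L := hsum
    have h4 := Complex.norm_deriv_le_of_forall_mem_sphere_norm_le (c := s) (R := 8 / L) (C := B)
      (f := riemannZeta) h8 (by
        apply DifferentiableOn.diffContOnCl
        intro z hz
        apply (hdiff z (hin z _)).differentiableWithinAt
        rw [closure_ball _ h8.ne', mem_closedBall_iff_norm] at hz
        exact hz) (by
        intro z hz
        apply hbd z (hin z _)
        rw [mem_sphere_iff_norm] at hz
        exact hz.le)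
    refine h4.trans (le_of_eq ?_)
    field_simp
  have hmem0 : cp t₀ ∈ Metric.closedBall (cp t₀) (8 / L) := Metric.mem_closedBall_self h8.le
  refine ⟨hB0, fun s hs => hbd s (hs.trans (by rw [← hsum]; linarith)), fun s hs => ?_⟩
  have hmem : s ∈ Metric.closedBall (cp t₀) (8 / L) := by
    rw [mem_closedBall_iff_norm]
    exact hs
  have h5 := Convex.norm_image_sub_le_of_norm_deriv_le (f := riemannZeta) (C := B * L / 8)
    (s := Metric.closedBall (cp t₀) (8 / L)) (x := cp t₀) (y := s)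
    (fun s hs => hdiff s (by
      rw [mem_closedBall_iff_norm] at hs
      exact hs.trans (by rw [← hsum]; linarith))) hder (convex_closedBall _ _) hmem0 hmem
  refine h5.trans ?_
  have h6 : 0 ≤ L * ‖s - cp t₀‖ * B := by positivity
  calc B * L / 8 * ‖s - cp t₀‖ = (L * ‖s - cp t₀‖ * B) / 8 := by ring
    _ ≤ L * ‖s - cp t₀‖ * B := by linarith

/-- the integral of the majorant -/
theorem maj_int {p : ℝ} (hp : 0 < p) : ∃ C T₀ : ℝ, 0 < C ∧ 400 ≤ T₀ ∧ ∀ T a b : ℝ, T₀ ≤ T → T ≤ a → a ≤ b → b ≤ 8 * T →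
    ∃ F : ℝ → ℝ, (∀ t ∈ Icc a b, Maj T (F t) t) ∧ ∃ W : ℝ → ℝ, Continuous W ∧ (∀ t ∈ Icc a b, F t ^ p ≤ W t) ∧
      ∫ t in a..b, W t ≤ C * ((∫ t in (a - 4 * Real.log T)..(b + 4 * Real.log T), ZZ t ^ p) +
        (b - a + 1) * T ^ (-(p / 4))) := by
  obtain ⟨m0, hm0⟩ := exists_nat_ge (2 / p)
  set m : ℕ := m0 + 2 with hm
  have hpm : 2 ≤ p * (m : ℝ) := by
    have h3 : 2 ≤ p * (m0 : ℝ) := by
      rw [div_le_iff₀ hp] at hm0
      linarith
    rw [hm]
    push_cast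
    nlinarith
  obtain ⟨C₁, T₁, hC₁, h1⟩ := maj_of m (by omega)
  obtain ⟨C₂, T₂, hC₂, h2⟩ := a_pow p m hp (by omega) hpm
  obtain ⟨C₃, T₃, hC₃, h3⟩ := a_cmp p hp
  have hev : ∀ᶠ T : ℝ in atTop, T₁ ≤ T ∧ T₂ ≤ T ∧ T₃ ≤ T ∧ 400 ≤ T ∧ 8 * Real.log T + 1 ≤ T ∧ 1 ≤ Real.log T ∧
      Real.log T * T ^ (-(p / 3)) ≤ T ^ (-(p / 4)) := by
    have e1 := (isLittleO_log_rpow_atTop (by positivity : 0 < p / 12)).bound one_pos
    have e2 := (isLittleO_log_rpow_atTop (one_pos)).bound (by norm_num : (0:ℝ) < 1 / 16)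
    have e3 := Real.tendsto_log_atTop.eventually_ge_atTop 1
    filter_upwards [e1, e2, e3, eventually_ge_atTop T₁, eventually_ge_atTop T₂, eventually_ge_atTop T₃,
      eventually_ge_atTop 400] with T g1 g2 g3 g4 g5 g6 g7
    have hT0 : 0 < T := by linarith
    refine ⟨g4, g5, g6, g7, ?_, g3, ?_⟩
    · rw [Real.norm_of_nonneg (by linarith), Real.rpow_one, Real.norm_of_nonneg hT0.le] at g2
      linarith
    · rw [Real.norm_of_nonneg (by linarith), Real.norm_of_nonneg (by positivity), one_mul] at g1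
      calc Real.log T * T ^ (-(p / 3)) ≤ T ^ (p / 12) * T ^ (-(p / 3)) := by gcongr
        _ = T ^ (-(p / 4)) := by rw [← Real.rpow_add hT0]; congr 1; ring
  obtain ⟨T₄, hT₄⟩ := eventually_atTop.1 hev
  refine ⟨2 ^ p * (C₁ ^ p * C₂ * (24 * C₃) + 1), max T₄ 400, by positivity, le_max_right _ _, fun T a b hT ha hab hb => ?_⟩
  obtain ⟨q1, q2, q3, q4, q5, q6, q7⟩ := hT₄ T ((le_max_left _ _).trans hT)
  have hT0 : 0 < T := by linarith
  set L := Real.log T with hL
  refine ⟨fun t => C₁ * S2 m 0 T t + T ^ (-(1 / 2 : ℝ)), fun t ht => h1 T 0 t q1 (by linarith [ht.1]) (by linarith [ht.2]),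
    fun t => 2 ^ p * (C₁ ^ p * (C₂ * W2 p 0 T a b t) + T ^ (-(p / 2))), ?_, fun t ht => ?_, ?_⟩
  · have := Pool.Agent.W917.MZ.CMP.w2_cont (p := p) (γ := 0) (T := T) (a := a) (b := b) (by linarith)
    fun_prop
  · have hS := Pool.Agent.W917.MZ.CMP.s2_nonneg (m := m) (γ := 0) (T := T) (t := t) (by linarith)
    refine (Pool.Agent.W917.MZ.CMP.add_rpow hp (mul_nonneg hC₁.le hS) (by positivity)).trans ?_
    rw [Real.mul_rpow hC₁.le hS, ← Real.rpow_mul hT0.le]
    have h4 := h2 T 0 a b t q2 (by linarith) ht.1 ht.2 (by linarith)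
    have e : -(1 / 2 : ℝ) * p = -(p / 2) := by ring
    rw [e]
    show _ ≤ 2 ^ p * (C₁ ^ p * (C₂ * W2 p 0 T a b t) + T ^ (-(p / 2)))
    gcongr
  · have hW := Pool.Agent.W917.MZ.CMP.w2_cont (p := p) (γ := 0) (T := T) (a := a) (b := b) (by linarith)
    have i1 : IntervalIntegrable (fun t => W2 p 0 T a b t) volume a b := hW.intervalIntegrable _ _
    have e1 : ∫ t in a..b, 2 ^ p * (C₁ ^ p * (C₂ * W2 p 0 T a b t) + T ^ (-(p / 2))) =
        2 ^ p * (C₁ ^ p * (C₂ * ∫ t in a..b, W2 p 0 T a b t) + (b - a) * T ^ (-(p / 2))) := by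
      rw [intervalIntegral.integral_const_mul, intervalIntegral.integral_add ((i1.const_mul _).const_mul _) (by simp),
        intervalIntegral.integral_const_mul, intervalIntegral.integral_const_mul, intervalIntegral.integral_const, smul_eq_mul]
    rw [e1]
    have h5 := Pool.Agent.W917.MZ.CMP.w2_int (p := p) (γ := 0) (T := T) (a := a) (b := b) (by linarith)
    rw [← hL] at h5
    set I := ∫ t in (a - 4 * L)..(b + 4 * L), ZZ t ^ p with hI
    have hI0 : 0 ≤ I := intervalIntegral.integral_nonneg (by linarith) fun t _ => Pool.Agent.W917.MZ.CMP.zzp_nonneg p t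
    have hd : ∀ γ : ℝ, DD p γ (a - 2 * L) (b + 2 * L) ≤ C₃ * (L * I + (b + 2 * L - (a - 2 * L) + 1) * T ^ (-(p / 3))) := by
      intro γ
      have := (h3 T γ (a - 2 * L) (b + 2 * L) q3 (by linarith) (by linarith) (by linarith)).2
      rw [← hL] at this
      have e2 : a - 2 * L - 2 * L = a - 4 * L := by ring
      have e3 : b + 2 * L + 2 * L = b + 4 * L := by ring
      rw [e2, e3] at this
      exact this
    have h6 : DD2 p 0 (a - 2 * L) (b + 2 * L) ≤ 2 * (C₃ * (L * I + (b + 2 * L - (a - 2 * L) + 1) * T ^ (-(p / 3)))) := by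
      unfold DD2
      linarith [hd 0, hd (0 + 1 / 2)]
    have hbr : (b + 2 * L - (a - 2 * L) + 1) * T ^ (-(p / 3)) ≤ 5 * (L * ((b - a + 1) * T ^ (-(p / 3)))) := by
      have g1 : b + 2 * L - (a - 2 * L) + 1 ≤ 5 * (L * (b - a + 1)) := by nlinarith
      have g2 : 0 ≤ T ^ (-(p / 3)) := by positivity
      nlinarith
    have hq : (b - a + 1) * (L * T ^ (-(p / 3))) ≤ (b - a + 1) * T ^ (-(p / 4)) :=
      mul_le_mul_of_nonneg_left q7 (by linarith)
    have h7 : L * ∫ t in a..b, W2 p 0 T a b t ≤ L * (4 * C₃ * I + 20 * C₃ * ((b - a + 1) * T ^ (-(p / 3)))) := by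
      nlinarith [h5, h6, hbr]
    have h8 : ∫ t in a..b, W2 p 0 T a b t ≤ 4 * C₃ * I + 20 * C₃ * ((b - a + 1) * T ^ (-(p / 3))) :=
      le_of_mul_le_mul_left h7 (by linarith)
    have h9 : (b - a + 1) * T ^ (-(p / 3)) ≤ (b - a + 1) * T ^ (-(p / 4)) := by
      refine mul_le_mul_of_nonneg_left ?_ (by linarith)
      exact Real.rpow_le_rpow_of_exponent_le (by linarith) (by linarith)
    have h10 : (b - a) * T ^ (-(p / 2)) ≤ (b - a + 1) * T ^ (-(p / 4)) := by
      refine mul_le_mul (by linarith) (Real.rpow_le_rpow_of_exponent_le (by linarith) (by linarith)) (by positivity) (by linarith)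
    set J := (b - a + 1) * T ^ (-(p / 4)) with hJ
    have hJ0 : 0 ≤ J := mul_nonneg (by linarith) (by positivity)
    have k1 : ∫ t in a..b, W2 p 0 T a b t ≤ 24 * C₃ * (I + J) := by
      nlinarith [mul_nonneg hC₃.le hI0, mul_nonneg hC₃.le hJ0, mul_le_mul_of_nonneg_left h9 (by linarith : 0 ≤ 20 * C₃)]
    have k2 : C₁ ^ p * (C₂ * ∫ t in a..b, W2 p 0 T a b t) ≤ C₁ ^ p * (C₂ * (24 * C₃ * (I + J))) := by gcongr
    calc 2 ^ p * (C₁ ^ p * (C₂ * ∫ t in a..b, W2 p 0 T a b t) + (b - a) * T ^ (-(p / 2)))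
        ≤ 2 ^ p * (C₁ ^ p * (C₂ * (24 * C₃ * (I + J))) + (I + J)) := by
          refine mul_le_mul_of_nonneg_left ?_ (by positivity)
          linarith
      _ = _ := by ring

end

end Pool.Agent.L7h13.MX
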