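import Pool.Agent.L7h13.MX.Max

/-!
# Oscillation at the scale `ε / log T`
-/

set_option autoImplicit false

open Complex MeasureTheory Set Filter Topology

namespace Pool.Agent.L7h13.MX

open Pool.Agent.W188.QS Pool.Agent.W188.GP Pool.Agent.W188.MZ

noncomputable section

lemma pow_diff_aux {p x y F e : ℝ} (hp : 0 < p) (hy : 0 ≤ y) (hyx : y ≤ x) (hxF : x ≤ F) (he0 : 0 ≤ e) (he1 : e ≤ 1)
    (hd : x - y ≤ e * F) : x ^ p - y ^ p ≤ max 1 p * (e ^ (min 1 p) * F ^ p) := by
  have hx : 0 ≤ x := hy.trans hyx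
  have hF : 0 ≤ F := hx.trans hxF
  rcases le_total p 1 with h1 | h1
  · rw [max_eq_left h1, min_eq_right h1, one_mul, ← Real.mul_rpow he0 hF]
    have e1 : x ^ p ≤ y ^ p + (x - y) ^ p := by
      have := Real.rpow_add_le_add_rpow hy (by linarith : 0 ≤ x - y) hp.le h1
      rwa [add_sub_cancel] at this
    have e2 : (x - y) ^ p ≤ (e * F) ^ p := Real.rpow_le_rpow (by linarith) hd hp.le
    linarith
  · rw [max_eq_right h1, min_eq_left h1, Real.rpow_one]
    rcases hx.eq_or_lt with h0 | h0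
    · have : y = 0 := le_antisymm (by rw [h0]; exact hyx) hy
      rw [this, ← h0, sub_self]
      positivity
    · have e1 : 1 + p * (y / x - 1) ≤ (y / x) ^ p := by
        have := one_add_mul_self_le_rpow_one_add (s := y / x - 1) (by
          have : 0 ≤ y / x := by positivity
          linarith) h1
        rwa [add_sub_cancel] at this
      rw [Real.div_rpow hy hx, le_div_iff₀ (by positivity)] at e1
      have e2 : x ^ p = x ^ (p - 1) * x := by
        rw [← Real.rpow_add_one h0.ne']; congr 1; ring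
      have e3 : x ^ p - y ^ p ≤ p * (x ^ (p - 1) * (x - y)) := by
        have : (1 + p * (y / x - 1)) * x ^ p = x ^ p - p * (x ^ (p - 1) * (x - y)) := by
          rw [e2]; field_simp; ring
        linarith
      refine e3.trans ?_
      have e4 : x ^ (p - 1) ≤ F ^ (p - 1) := Real.rpow_le_rpow hx hxF (by linarith)
      have e5 : F ^ p = F ^ (p - 1) * F := by
        have : 0 < F := h0.trans_le hxF
        rw [← Real.rpow_add_one this.ne']; congr 1; ring
      rw [e5]
      calc p * (x ^ (p - 1) * (x - y)) ≤ p * (F ^ (p - 1) * (e * F)) := by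
            refine mul_le_mul_of_nonneg_left ?_ hp.le
            exact mul_le_mul e4 hd (by linarith) (by positivity)
        _ = _ := by ring

lemma pow_diff {p x y F e : ℝ} (hp : 0 < p) (hx : 0 ≤ x) (hy : 0 ≤ y) (hxF : x ≤ F) (hyF : y ≤ F) (he0 : 0 ≤ e) (he1 : e ≤ 1)
    (hd : |x - y| ≤ e * F) : |x ^ p - y ^ p| ≤ max 1 p * (e ^ (min 1 p) * F ^ p) := by
  rcases le_total y x with h | h
  · rw [abs_of_nonneg (by linarith)] at hd
    rw [abs_of_nonneg (sub_nonneg.2 (Real.rpow_le_rpow hy h hp.le))]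
    exact pow_diff_aux hp hy h hxF he0 he1 hd
  · rw [abs_sub_comm] at hd ⊢
    rw [abs_of_nonneg (by linarith)] at hd
    rw [abs_of_nonneg (sub_nonneg.2 (Real.rpow_le_rpow hx h hp.le))]
    exact pow_diff_aux hp hx h hyF he0 he1 hd

lemma maj_diff {T F t p e : ℝ} (h : Maj T F t) (hL : 0 < Real.log T) (hp : 0 < p) (he0 : 0 ≤ e) (he1 : e ≤ 1) {s : ℂ}
    (hs : ‖s - cp t‖ ≤ e / Real.log T) : |‖riemannZeta s‖ ^ p - ZZ t ^ p| ≤ max 1 p * (e ^ (min 1 p) * F ^ p) := by
  have h8 : ‖s - cp t‖ ≤ 8 / Real.log T := hs.trans (by gcongr; linarith)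
  refine pow_diff hp (norm_nonneg _) (norm_nonneg _) (h.bd s h8) (h.bd (cp t) (by rw [sub_self, norm_zero]; positivity)) he0 he1 ?_
  refine (abs_norm_sub_norm_le _ _).trans ((h.lip s h8).trans ?_)
  refine mul_le_mul_of_nonneg_right ?_ h.nn
  calc Real.log T * ‖s - cp t‖ ≤ Real.log T * (e / Real.log T) := by gcongr
    _ = e := by field_simp

/-- the two quantities on the right -/
def RH (p T a b : ℝ) : ℝ :=
  (∫ t in (a - 4 * Real.log T)..(b + 4 * Real.log T), ZZ t ^ p) + (b - a + 1) * T ^ (-(p / 4))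

/-- local maximal inequality and stability, all exponents -/
theorem stab {p : ℝ} (hp : 0 < p) : ∃ C T₀ : ℝ, 0 < C ∧ 400 ≤ T₀ ∧ ∀ T a b : ℝ, T₀ ≤ T → T ≤ a → a ≤ b → b ≤ 8 * T →
    (∃ W : ℝ → ℝ, Continuous W ∧ (∀ t ∈ Icc a b, ∀ s : ℂ, ‖s - cp t‖ ≤ 8 / Real.log T → ‖riemannZeta s‖ ^ p ≤ W t) ∧
      ∫ t in a..b, W t ≤ C * RH p T a b) ∧
    ∀ (e : ℝ) (S : ℝ → ℂ), 0 ≤ e → e ≤ 1 → Measurable S → (∀ t ∈ Icc a b, ‖S t - cp t‖ ≤ e / Real.log T) →
      IntervalIntegrable (fun t => ‖riemannZeta (S t)‖ ^ p) volume a b ∧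
      |(∫ t in a..b, ‖riemannZeta (S t)‖ ^ p) - ∫ t in a..b, ZZ t ^ p| ≤ C * e ^ (min 1 p) * RH p T a b := by
  obtain ⟨C, T₀, hC, hT₀, h⟩ := maj_int hp
  refine ⟨max 1 p * C + C, T₀, by positivity, hT₀, fun T a b hT ha hab hb => ?_⟩
  obtain ⟨F, hF, W, hWc, hFW, hWi⟩ := h T a b hT ha hab hb
  have hT0 : 0 < T := by linarith
  have hL : 0 < Real.log T := Real.log_pos (by linarith)
  have hI0 : 0 ≤ RH p T a b := by
    unfold RH
    have h1 : 0 ≤ ∫ t in (a - 4 * Real.log T)..(b + 4 * Real.log T), ZZ t ^ p :=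
      intervalIntegral.integral_nonneg (by linarith) fun t _ => Pool.Agent.W917.MZ.CMP.zzp_nonneg p t
    have h2 : 0 ≤ (b - a + 1) * T ^ (-(p / 4)) := mul_nonneg (by linarith) (by positivity)
    linarith
  have hWi' : ∫ t in a..b, W t ≤ C * RH p T a b := hWi
  constructor
  · refine ⟨W, hWc, fun t ht s hs => ?_, hWi'.trans ?_⟩
    · exact (Real.rpow_le_rpow (norm_nonneg _) ((hF t ht).bd s hs) hp.le).trans (hFW t ht)
    · refine mul_le_mul_of_nonneg_right ?_ hI0
      have : 0 ≤ max 1 p * C := by positivity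
      linarith
  · intro e S he0 he1 hSm hS
    have hzm : Measurable (fun t => ‖riemannZeta (S t)‖ ^ p) := by
      have : Measurable riemannZeta := by
        refine measurable_of_continuousOn_compl_singleton 1 ?_
        intro s hs
        exact (differentiableAt_riemannZeta hs).continuousAt.continuousWithinAt
      exact ((this.comp hSm).norm.pow_const p)
    have hbd : ∀ t ∈ Icc a b, ‖riemannZeta (S t)‖ ^ p ≤ W t := fun t ht => by
      refine (Real.rpow_le_rpow (norm_nonneg _) ((hF t ht).bd (S t) ((hS t ht).trans ?_)) hp.le).trans (hFW t ht)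
      gcongr
      linarith
    have hi : IntervalIntegrable (fun t => ‖riemannZeta (S t)‖ ^ p) volume a b := by
      rw [intervalIntegrable_iff_integrableOn_Icc_of_le hab]
      refine Integrable.mono' (hWc.continuousOn.integrableOn_compact isCompact_Icc) hzm.aestronglyMeasurable ?_
      filter_upwards [ae_restrict_mem measurableSet_Icc] with t ht
      rw [Real.norm_of_nonneg (by positivity)]
      exact hbd t ht
    have hz : IntervalIntegrable (fun t => ZZ t ^ p) volume a b :=
      (Pool.Agent.W917.MZ.CMP.zzp_cont hp).intervalIntegrable _ _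
    refine ⟨hi, ?_⟩
    rw [← intervalIntegral.integral_sub hi hz]
    have h1 : ‖∫ t in a..b, (‖riemannZeta (S t)‖ ^ p - ZZ t ^ p)‖ ≤ ∫ t in a..b, max 1 p * (e ^ (min 1 p) * W t) := by
      refine intervalIntegral.norm_integral_le_of_norm_le hab (Eventually.of_forall fun t ht => ?_)
        ((continuous_const.mul (continuous_const.mul hWc)).intervalIntegrable _ _)
      have ht' : t ∈ Icc a b := ⟨ht.1.le, ht.2⟩
      rw [Real.norm_eq_abs]
      refine (maj_diff (hF t ht') hL hp he0 he1 (hS t ht')).trans ?_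
      gcongr
      exact hFW t ht'
    rw [intervalIntegral.integral_const_mul, intervalIntegral.integral_const_mul, Real.norm_eq_abs] at h1
    refine h1.trans ?_
    have h2 : 0 ≤ e ^ (min 1 p) := by positivity
    calc max 1 p * (e ^ (min 1 p) * ∫ t in a..b, W t) ≤ max 1 p * (e ^ (min 1 p) * (C * RH p T a b)) := by gcongr
      _ = max 1 p * C * e ^ (min 1 p) * RH p T a b := by ring
      _ ≤ _ := by
        gcongr
        linarith

end

end Pool.Agent.L7h13.MX
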