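import Pool.Agent.L7h13.MX.Stab
import Pool.Agent.L7h13.SP.Zeta
import Pool.Agent.L7h13.AF.Tau
import Pool.Agent.W22.QS.Dyad

/-!
# The asymptotic formula is the same near the critical line
-/

set_option autoImplicit false

open Complex MeasureTheory Set Filter Topology

namespace Pool.Agent.L7h13.MX

open Pool.Agent.W188.QS Pool.Agent.W188.GP Pool.Agent.W188.MZ

noncomputable section

variable {p : ℝ}

/-- the moment between `a` and `b` -/
def G (p a b : ℝ) : ℝ := ∫ t in a..b, ZZ t ^ p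

lemma G_ii (hp : 0 < p) (a b : ℝ) : IntervalIntegrable (fun t => ZZ t ^ p) volume a b :=
  (Pool.Agent.W917.MZ.CMP.zzp_cont hp).intervalIntegrable _ _

lemma G_nonneg {a b : ℝ} (hab : a ≤ b) : 0 ≤ G p a b :=
  intervalIntegral.integral_nonneg hab fun t _ => Pool.Agent.W917.MZ.CMP.zzp_nonneg p t

lemma G_add (hp : 0 < p) (a b c : ℝ) : G p a b + G p b c = G p a c :=
  intervalIntegral.integral_add_adjacent_intervals (G_ii hp _ _) (G_ii hp _ _)

lemma G_mono (hp : 0 < p) {a a' b b' : ℝ} (h1 : a' ≤ a) (_h2 : a ≤ b) (h3 : b ≤ b') : G p a b ≤ G p a' b' := by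
  have e1 := G_add hp a' a b
  have e2 := G_add hp a' b b'
  have h4 := G_nonneg (p := p) h1
  have h5 := G_nonneg (p := p) h3
  linarith

/-- polynomial bound -/
lemma G_poly (hp : 0 < p) : ∃ C : ℝ, 0 < C ∧ ∀ T : ℝ, 4 ≤ T → G p (T / 4) (2 * T) ≤ C * T ^ (5 * p + 1) := by
  obtain ⟨C, hC1, hC⟩ := Pool.Agent.L7h13.SP.zgrow 3
  refine ⟨2 * (C * 2 ^ (5:ℝ)) ^ p, by positivity, fun T hT => ?_⟩
  have hT0 : 0 < T := by linarith
  have h1 : ∀ t ∈ Icc (T / 4) (2 * T), ZZ t ^ p ≤ (C * (2 * T) ^ (5:ℝ)) ^ p := by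
    intro t ht
    refine Real.rpow_le_rpow (norm_nonneg _) ?_ hp.le
    have h2 := hC (cp t) (by unfold cp; norm_num) (by unfold cp; norm_num)
      (by have := ht.1; rw [Pool.Agent.W721.MZ.cp_im]; linarith)
    rw [Pool.Agent.W721.MZ.cp_im] at h2
    refine h2.trans ?_
    have h3 : 0 ≤ t := by linarith [ht.1]
    have h4 : t ≤ 2 * T := ht.2
    gcongr
  have h2 : G p (T / 4) (2 * T) ≤ ∫ _ in (T / 4)..(2 * T), (C * (2 * T) ^ (5:ℝ)) ^ p :=
    intervalIntegral.integral_mono_on (by linarith) (G_ii hp _ _) (by simp) h1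
  rw [intervalIntegral.integral_const, smul_eq_mul] at h2
  refine h2.trans ?_
  have e1 : (C * (2 * T) ^ (5:ℝ)) ^ p = (C * 2 ^ (5:ℝ)) ^ p * T ^ (5 * p) := by
    rw [Real.mul_rpow (by norm_num) hT0.le, ← mul_assoc, Real.mul_rpow (by positivity) (by positivity), ← Real.rpow_mul hT0.le]
  rw [e1, Real.rpow_add hT0, Real.rpow_one]
  have h3 : 0 ≤ (C * 2 ^ (5:ℝ)) ^ p * T ^ (5 * p) := by positivity
  have h4 := mul_le_mul_of_nonneg_right (by linarith : 2 * T - T / 4 ≤ 2 * T) h3
  refine h4.trans (le_of_eq ?_)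
  ring

/-- the function is between two values near the critical line -/
def NearV (p : ℝ) (V : ℝ → ℝ) : Prop := ∀ ε : ℝ, 0 < ε → ∀ᶠ t : ℝ in atTop, Btw p (ε / Real.log t) t (V t)

variable {V : ℝ → ℝ}

theorem win2 (hp : 0 < p) (hVm : Measurable V) (hV : NearV p V) {δ : ℝ} (hδ : 0 < δ) :
    ∀ᶠ T : ℝ in atTop, 400 ≤ T ∧ ∀ a b : ℝ, T ≤ a → a ≤ b → b ≤ 8 * T → (∀ t ∈ Icc a b, 0 ≤ V t) ∧
      IntervalIntegrable V volume a b ∧
      |(∫ t in a..b, V t) - G p a b| ≤ δ * (G p (a - 4 * Real.log T) (b + 4 * Real.log T) + (b - a + 1)) := by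
  obtain ⟨C, T₀, hC, hT₀, h⟩ := stabV hp
  obtain ⟨ε, hε0, hε1, hε⟩ : ∃ ε : ℝ, 0 < ε ∧ ε ≤ 1 ∧ C * ε ^ (min 1 p) ≤ δ := by
    have hm : 0 < min 1 p := lt_min one_pos hp
    refine ⟨min 1 ((δ / C) ^ (1 / min 1 p)), lt_min one_pos (by positivity), min_le_left _ _, ?_⟩
    have h1 : (min 1 ((δ / C) ^ (1 / min 1 p))) ^ (min 1 p) ≤ ((δ / C) ^ (1 / min 1 p)) ^ (min 1 p) := by
      refine Real.rpow_le_rpow ?_ (min_le_right _ _) hm.le
      exact le_min zero_le_one (by positivity)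
    rw [← Real.rpow_mul (by positivity), one_div_mul_cancel hm.ne', Real.rpow_one] at h1
    calc C * (min 1 ((δ / C) ^ (1 / min 1 p))) ^ (min 1 p) ≤ C * (δ / C) := by gcongr
      _ = δ := by field_simp
  obtain ⟨t₁, ht₁⟩ := eventually_atTop.1 (hV ε hε0)
  filter_upwards [eventually_ge_atTop t₁, eventually_ge_atTop T₀] with T hT1 hT2
  have hT400 : 400 ≤ T := by linarith
  refine ⟨hT400, fun a b ha hab hb => ?_⟩
  have hL : 0 < Real.log T := Real.log_pos (by linarith)
  have hbt : ∀ t ∈ Icc a b, Btw p (ε / Real.log T) t (V t) := by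
    intro t ht
    refine (ht₁ t (by linarith [ht.1])).mono ?_
    have : Real.log T ≤ Real.log t := Real.log_le_log (by linarith) (by linarith [ht.1])
    gcongr
  obtain ⟨h1, h2⟩ := (h T a b hT2 ha hab hb).2 ε V hε0.le hε1 hVm hbt
  refine ⟨fun t ht => (hbt t ht).nonneg, h1, h2.trans ?_⟩
  have hpow : T ^ (-(p / 4)) ≤ 1 := Real.rpow_le_one_of_one_le_of_nonpos (by linarith) (by linarith)
  have h3 : RH p T a b ≤ G p (a - 4 * Real.log T) (b + 4 * Real.log T) + (b - a + 1) := by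
    unfold RH G
    have : (b - a + 1) * T ^ (-(p / 4)) ≤ (b - a + 1) * 1 := mul_le_mul_of_nonneg_left hpow (by linarith)
    linarith
  have h4 : 0 ≤ G p (a - 4 * Real.log T) (b + 4 * Real.log T) + (b - a + 1) := by
    have := G_nonneg (p := p) (a := a - 4 * Real.log T) (b := b + 4 * Real.log T) (by linarith)
    linarith
  calc C * ε ^ (min 1 p) * RH p T a b ≤ C * ε ^ (min 1 p) * (G p (a - 4 * Real.log T) (b + 4 * Real.log T) + (b - a + 1)) := by
        gcongr
    _ ≤ _ := by gcongr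

lemma iter {g : ℕ → ℝ} {B : ℝ} {J : ℕ} (h : ∀ j < J, g j ≤ B + g (j + 1) / 2) :
    ∀ n ≤ J, g 0 ≤ (2 - 2 / 2 ^ n) * B + g n / 2 ^ n := by
  intro n
  induction n with
  | zero => intro _; simp
  | succ n ih =>
    intro hn
    have h1 := ih (by omega)
    have h2 := h n (by omega)
    have h3 : g n / 2 ^ n ≤ (B + g (n + 1) / 2) / 2 ^ n := by gcongr
    have e : (B + g (n + 1) / 2) / 2 ^ n = 1 / 2 ^ n * B + g (n + 1) / 2 ^ (n + 1) := by
      field_simp
      ring
    have e2 : (2 - 2 / 2 ^ n) * B + 1 / 2 ^ n * B = (2 - 2 / 2 ^ (n + 1)) * B := by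
      field_simp
      ring
    linarith

lemma log_sq_small (K : ℝ) : ∀ᶠ T : ℝ in atTop, 4 * ((K * Real.log T + 1) * Real.log T) ≤ T / 4 := by
  have a1 : (fun T : ℝ => Real.log T ^ 2) =o[atTop] (fun T : ℝ => T) := by
    have h := isLittleO_log_rpow_rpow_atTop (2 : ℝ) one_pos
    simpa using h
  have a2 : (fun T : ℝ => Real.log T) =o[atTop] (fun T : ℝ => T) := Real.isLittleO_log_id_atTop
  have h1 : (fun T : ℝ => 4 * ((K * Real.log T + 1) * Real.log T)) =o[atTop] (fun T : ℝ => T) := by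
    have := (a1.const_mul_left (4 * K)).add (a2.const_mul_left 4)
    refine this.congr_left fun T => ?_
    ring
  have := h1.bound (by norm_num : (0:ℝ) < 1 / 4)
  filter_upwards [this, eventually_gt_atTop 0] with T h hT
  rw [Real.norm_of_nonneg hT.le] at h
  exact (le_abs_self _).trans (by rw [← Real.norm_eq_abs]; linarith)

/-- reverse bound -/
theorem rev (hp : 0 < p) (hVm : Measurable V) (hV : NearV p V) :
    ∀ᶠ T : ℝ in atTop, G p (T / 2) T ≤ 3 * ((∫ t in (T / 4)..(2 * T), V t) + T) := by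
  obtain ⟨C, hC, hpoly⟩ := G_poly hp
  have hquart : Tendsto (fun T : ℝ => T / 4) atTop atTop := tendsto_id.atTop_div_const (by norm_num)
  filter_upwards [hquart.eventually (win2 hp hVm hV (by norm_num : (0:ℝ) < 1 / 2)), log_sq_small (2 * (5 * p + 1)),
    eventually_ge_atTop C, eventually_ge_atTop 1600] with T ⟨h400, hw⟩ hsm hCT hT16
  have hT0 : 0 < T := by linarith
  set L := Real.log (T / 4) with hLdef
  have hL0 : 0 < L := Real.log_pos (by linarith)
  have hLT : L ≤ Real.log T := Real.log_le_log (by linarith) (by linarith)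
  have hlT0 : 0 < Real.log T := hL0.trans_le hLT
  set J : ℕ := ⌈2 * (5 * p + 1) * Real.log T⌉₊ with hJ
  have hJ1 : (J : ℝ) ≤ 2 * (5 * p + 1) * Real.log T + 1 := (Nat.ceil_lt_add_one (by positivity)).le
  have hJ2 : 2 * (5 * p + 1) * Real.log T ≤ J := Nat.le_ceil _
  have hJL : ∀ j : ℕ, j ≤ J → 4 * j * L ≤ T / 4 := by
    intro j hj
    have h1 : (j : ℝ) ≤ 2 * (5 * p + 1) * Real.log T + 1 := le_trans (by exact_mod_cast hj) hJ1
    have h2 : (j : ℝ) * L ≤ (2 * (5 * p + 1) * Real.log T + 1) * Real.log T := by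
      refine mul_le_mul h1 hLT hL0.le (by positivity)
    linarith
  set g : ℕ → ℝ := fun j => G p (T / 2 - 4 * j * L) (T + 4 * j * L) with hg
  set B : ℝ := (∫ t in (T / 4)..(2 * T), V t) + T with hB
  obtain ⟨hv1, hv2, -⟩ := hw (T / 4) (2 * T) le_rfl (by linarith) (by linarith)
  have hstep : ∀ j < J, g j ≤ B + g (j + 1) / 2 := by
    intro j hj
    have h4 := hJL j hj.le
    have h5 : 0 ≤ 4 * (j : ℝ) * L := by positivity
    obtain ⟨-, w2, w3⟩ := hw (T / 2 - 4 * j * L) (T + 4 * j * L) (by linarith) (by linarith) (by linarith)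
    have e : G p (T / 2 - 4 * j * L - 4 * L) (T + 4 * j * L + 4 * L) = g (j + 1) := by
      simp only [hg]
      push_cast
      congr 1 <;> ring
    rw [e, abs_le] at w3
    have h6 : ∫ t in (T / 2 - 4 * j * L)..(T + 4 * j * L), V t ≤ ∫ t in (T / 4)..(2 * T), V t := by
      refine intervalIntegral.integral_mono_interval (by linarith) (by linarith) (by linarith) ?_ hv2
      filter_upwards [ae_restrict_mem measurableSet_Ioc] with t ht
      exact hv1 t ⟨ht.1.le, ht.2⟩
    have h7 : g j = G p (T / 2 - 4 * j * L) (T + 4 * j * L) := rfl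
    rw [h7]
    linarith [w3.1]
  have hit := iter hstep J le_rfl
  have hgJ : g J ≤ C * T ^ (5 * p + 1) := by
    refine le_trans ?_ (hpoly T (by linarith))
    have h4 := hJL J le_rfl
    have h5 : 0 ≤ 4 * (J : ℝ) * L := by positivity
    exact G_mono hp (by linarith) (by linarith) (by linarith)
  have h2J : T ^ (5 * p + 1) ≤ 2 ^ J := by
    rw [← Real.rpow_natCast 2 J, Real.rpow_def_of_pos hT0, Real.rpow_def_of_pos (by norm_num : (0:ℝ) < 2)]
    apply Real.exp_le_exp.2
    have h1 : (1:ℝ) / 2 ≤ Real.log 2 := by linarith [Real.log_two_gt_d9]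
    calc Real.log T * (5 * p + 1) = 1 / 2 * (2 * (5 * p + 1) * Real.log T) := by ring
      _ ≤ Real.log 2 * J := mul_le_mul h1 hJ2 (by positivity) (by positivity)
  have hlast : g J / 2 ^ J ≤ T := by
    rw [div_le_iff₀ (by positivity)]
    calc g J ≤ C * T ^ (5 * p + 1) := hgJ
      _ ≤ T * 2 ^ J := by gcongr
  have hB0 : T ≤ B := by
    have : 0 ≤ ∫ t in (T / 4)..(2 * T), V t := intervalIntegral.integral_nonneg (by linarith) hv1
    linarith
  have h0 : g 0 = G p (T / 2) T := by simp [hg]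
  rw [← h0]
  have h1 : (2 - 2 / 2 ^ J) * B ≤ 2 * B := by
    have : (0:ℝ) ≤ 2 / 2 ^ J := by positivity
    nlinarith
  linarith

/-- dyadic moment difference -/
def DD' (p : ℝ) (V : ℝ → ℝ) (T : ℝ) : ℝ := (∫ t in (T / 2)..T, V t) - G p (T / 2) T

lemma le_scale {A : ℝ} (hA : 0 ≤ A) {T : ℝ} (hT : Real.exp 1 ≤ T) : T ≤ T * Real.log T ^ A := by
  have hT0 : 0 < T := (Real.exp_pos 1).trans_le hT
  have h1 : 1 ≤ Real.log T := by rwa [Real.le_log_iff_exp_le hT0]
  have h2 : 1 ≤ Real.log T ^ A := Real.one_le_rpow h1 hA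
  nlinarith

theorem D_small (hp : 0 < p) (hVm : Measurable V) (hV : NearV p V) {A K : ℝ} (hA : 0 ≤ A)
    (hK : ∀ᶠ T : ℝ in atTop, G p (T / 4) (2 * T) ≤ K * (T * Real.log T ^ A)) :
    Tendsto (fun T : ℝ => DD' p V T / (T * Real.log T ^ A)) atTop (𝓝 0) := by
  rw [Metric.tendsto_nhds]
  intro ε hε
  have hquart : Tendsto (fun T : ℝ => T / 4) atTop atTop := tendsto_id.atTop_div_const (by norm_num)
  have hδ : 0 < ε / (2 * (|K| + 1)) := by positivity
  filter_upwards [hquart.eventually (win2 hp hVm hV hδ), hK, log_sq_small 1, eventually_ge_atTop 1600,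
    eventually_ge_atTop (Real.exp 1)] with T ⟨h400, hw⟩ hKT hsm hT16 hTe
  have hT0 : 0 < T := by linarith
  set L := Real.log (T / 4) with hLdef
  have hL0 : 0 < L := Real.log_pos (by linarith)
  have hLT : L ≤ Real.log T := Real.log_le_log (by linarith) (by linarith)
  have hsc := le_scale hA hTe
  have hS0 : 0 < T * Real.log T ^ A := hT0.trans_le hsc
  obtain ⟨-, -, h3⟩ := hw (T / 2) T (by linarith) (by linarith) (by linarith)
  have h4L : 4 * L ≤ T / 4 := by nlinarith
  have h4 : G p (T / 2 - 4 * L) (T + 4 * L) ≤ G p (T / 4) (2 * T) := G_mono hp (by linarith) (by linarith) (by linarith)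
  have h5 : G p (T / 2 - 4 * L) (T + 4 * L) + (T - T / 2 + 1) ≤ (|K| + 1) * (T * Real.log T ^ A) := by
    have : K * (T * Real.log T ^ A) ≤ |K| * (T * Real.log T ^ A) := mul_le_mul_of_nonneg_right (le_abs_self K) hS0.le
    linarith
  rw [Real.dist_eq, sub_zero, abs_div, abs_of_pos hS0, div_lt_iff₀ hS0]
  have h6 : |DD' p V T| ≤ ε / (2 * (|K| + 1)) * ((|K| + 1) * (T * Real.log T ^ A)) := by
    refine h3.trans ?_
    gcongr
  refine h6.trans_lt ?_
  have e : ε / (2 * (|K| + 1)) * ((|K| + 1) * (T * Real.log T ^ A)) = ε / 2 * (T * Real.log T ^ A) := by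
    have : |K| + 1 ≠ 0 := by positivity
    field_simp
  rw [e]
  nlinarith

/-- eventually bounded from a limit -/
lemma bdd_of_lim {Y : ℝ → ℝ} {A c : ℝ} (hA : 0 ≤ A)
    (h : Tendsto (fun T : ℝ => Y T / (T * Real.log T ^ A)) atTop (𝓝 c)) :
    ∀ᶠ T : ℝ in atTop, Y T ≤ (c + 1) * (T * Real.log T ^ A) := by
  filter_upwards [h.eventually (gt_mem_nhds (by linarith : c < c + 1)), eventually_ge_atTop (Real.exp 1)] with T h1 h2
  have hT0 : 0 < T := (Real.exp_pos 1).trans_le h2
  have h3 : 0 < T * Real.log T ^ A := hT0.trans_le (le_scale hA h2)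
  rw [div_lt_iff₀ h3] at h1
  exact h1.le

/-- the main equivalence -/
theorem equiv (hp : 0 < p) (hVm : Measurable V) (hV : NearV p V) : ∃ T₁ : ℝ, 400 ≤ T₁ ∧
    (∀ T, T₁ ≤ T → IntervalIntegrable V volume T₁ T) ∧ (∀ t, T₁ ≤ t → 0 ≤ V t) ∧
    ∀ A c : ℝ, 0 ≤ A → (Tendsto (fun T : ℝ => G p 0 T / (T * Real.log T ^ A)) atTop (𝓝 c) ↔
      Tendsto (fun T : ℝ => (∫ t in T₁..T, V t) / (T * Real.log T ^ A)) atTop (𝓝 c)) := by
  obtain ⟨T₁, hT₁⟩ := eventually_atTop.1 (win2 hp hVm hV one_pos)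
  have h400 : 400 ≤ T₁ := (hT₁ T₁ le_rfl).1
  have hT₁0 : 0 < T₁ := by linarith
  have hii : ∀ n : ℕ, IntervalIntegrable V volume T₁ (8 ^ n * T₁) := by
    intro n
    induction n with
    | zero => simp
    | succ n ih =>
      refine ih.trans ?_
      have h1 : T₁ ≤ 8 ^ n * T₁ := le_mul_of_one_le_left hT₁0.le (one_le_pow₀ (by norm_num))
      refine ((hT₁ (8 ^ n * T₁) h1).2 (8 ^ n * T₁) (8 ^ (n + 1) * T₁) le_rfl ?_ ?_).2.1
      · rw [pow_succ]; nlinarith
      · rw [pow_succ]; linarith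
  have hint : ∀ T, T₁ ≤ T → IntervalIntegrable V volume T₁ T := by
    intro T hT
    obtain ⟨n, hn⟩ := pow_unbounded_of_one_lt (T / T₁) (by norm_num : (1:ℝ) < 8)
    rw [div_lt_iff₀ hT₁0] at hn
    refine (hii n).mono_set ?_
    rw [uIcc_of_le hT, uIcc_of_le (by linarith)]
    exact Icc_subset_Icc le_rfl hn.le
  have hpos : ∀ t, T₁ ≤ t → 0 ≤ V t := fun t ht =>
    (hT₁ t ht).2 t t le_rfl le_rfl (by linarith) |>.1 t ⟨le_rfl, le_rfl⟩
  refine ⟨T₁, h400, hint, hpos, fun A c hA => ?_⟩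
  -- monotone functions
  set FV : ℝ → ℝ := fun T => ∫ t in T₁..(max T T₁), V t with hFV
  set FM : ℝ → ℝ := fun T => G p 0 (max T 0) with hFM
  have hsub : ∀ a b, T₁ ≤ a → a ≤ b → (∫ t in T₁..b, V t) - (∫ t in T₁..a, V t) = ∫ t in a..b, V t := by
    intro a b ha hab
    rw [intervalIntegral.integral_interval_sub_left (hint b (ha.trans hab)) (hint a ha)]
  have hVnn : ∀ a b, T₁ ≤ a → a ≤ b → 0 ≤ ∫ t in a..b, V t := fun a b ha hab =>
    intervalIntegral.integral_nonneg hab fun t ht => hpos t (ha.trans ht.1)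
  have hFVm : Monotone FV := by
    intro x y hxy
    have h1 : max x T₁ ≤ max y T₁ := max_le_max_right _ hxy
    have h2 := hsub (max x T₁) (max y T₁) (le_max_right _ _) h1
    have h3 := hVnn (max x T₁) (max y T₁) (le_max_right _ _) h1
    show (∫ t in T₁..(max x T₁), V t) ≤ ∫ t in T₁..(max y T₁), V t
    linarith
  have hFV0 : ∀ x, 0 ≤ FV x := fun x => hVnn _ _ le_rfl (le_max_right _ _)
  have hFMm : Monotone FM := by
    intro x y hxy
    exact G_mono hp le_rfl (le_max_right _ _) (max_le_max_right _ hxy)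
  have hFM0 : ∀ x, 0 ≤ FM x := fun x => G_nonneg (le_max_right _ _)
  have eV : ∀ᶠ T : ℝ in atTop, FV T / (T * Real.log T ^ A) = (∫ t in T₁..T, V t) / (T * Real.log T ^ A) := by
    filter_upwards [eventually_ge_atTop T₁] with T hT
    simp only [hFV]
    rw [max_eq_left hT]
  have eM : ∀ᶠ T : ℝ in atTop, FM T / (T * Real.log T ^ A) = G p 0 T / (T * Real.log T ^ A) := by
    filter_upwards [eventually_ge_atTop 0] with T hT
    simp only [hFM]
    rw [max_eq_left hT]
  rw [← tendsto_congr' eV, ← tendsto_congr' eM]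
  have dV : ∀ T, 2 * T₁ ≤ T → FV T - FV (T / 2) = ∫ t in (T / 2)..T, V t := by
    intro T hT
    simp only [hFV]
    rw [max_eq_left (by linarith), max_eq_left (by linarith), hsub _ _ (by linarith) (by linarith)]
  have dM : ∀ T, 0 ≤ T → FM T - FM (T / 2) = G p (T / 2) T := by
    intro T hT
    simp only [hFM]
    rw [max_eq_left (by linarith), max_eq_left (by linarith)]
    linarith [G_add hp 0 (T / 2) T]
  have half : ∀ Y : ℝ → ℝ, Tendsto (fun T : ℝ => Y T / (T * Real.log T ^ A)) atTop (𝓝 c) →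
      Tendsto (fun T : ℝ => (Y T - Y (T / 2)) / (T * Real.log T ^ A)) atTop (𝓝 (c / 2)) := by
    intro Y hY
    have h1 := hY.sub (Pool.Agent.L7h13.AF.scale (by norm_num : (0:ℝ) < 1 / 2) hY)
    have e : c - 1 / 2 * c = c / 2 := by ring
    rw [e] at h1
    refine h1.congr fun T => ?_
    rw [← sub_div, show (1:ℝ) / 2 * T = T / 2 by ring]
  constructor
  · intro hM
    have hK : ∀ᶠ T : ℝ in atTop, G p (T / 4) (2 * T) ≤ (2 * c + 1) * (T * Real.log T ^ A) := by
      filter_upwards [bdd_of_lim hA (Pool.Agent.L7h13.AF.scale (by norm_num : (0:ℝ) < 2) hM), eventually_gt_atTop 0]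
        with T h1 h2
      refine le_trans ?_ h1
      simp only [hFM]
      exact G_mono hp (by linarith) (by linarith) (le_max_left _ _)
    have hD := D_small hp hVm hV hA hK
    refine Pool.Agent.W22.QS.qs_dyad c A hA FV hFVm hFV0 ?_
    have h1 := (half FM hM).add hD
    rw [add_zero] at h1
    refine h1.congr' ?_
    filter_upwards [eventually_ge_atTop (2 * T₁), eventually_ge_atTop 0] with T h2 h3
    rw [← add_div, dM T h3, dV T h2]
    unfold DD'
    congr 1
    ring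
  · intro hVl
    have hrev := rev hp hVm hV
    have hhalf : Tendsto (fun T : ℝ => T / 2) atTop atTop := tendsto_id.atTop_div_const (by norm_num)
    have hdbl : Tendsto (fun T : ℝ => 2 * T) atTop atTop := tendsto_id.const_mul_atTop (by norm_num)
    have hK : ∀ᶠ T : ℝ in atTop, G p (T / 4) (2 * T) ≤ (9 * (4 * c + 1) + 12) * (T * Real.log T ^ A) := by
      filter_upwards [bdd_of_lim hA (Pool.Agent.L7h13.AF.scale (by norm_num : (0:ℝ) < 4) hVl), hrev, hhalf.eventually hrev,
        hdbl.eventually hrev, eventually_ge_atTop (8 * T₁), eventually_ge_atTop (Real.exp 1)] with T h1 h2 h3 h4 h5 h6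
      have hle : ∀ a b, T₁ ≤ a → a ≤ b → b ≤ 4 * T → ∫ t in a..b, V t ≤ FV (4 * T) := by
        intro a b ha hab hb
        simp only [hFV]
        rw [max_eq_left (by linarith)]
        have q1 := hsub a (4 * T) ha (hab.trans hb)
        have q2 := hsub b (4 * T) (ha.trans hab) hb
        have q3 := hsub a b ha hab
        have q4 := hVnn b (4 * T) (ha.trans hab) hb
        have q5 := hVnn T₁ a le_rfl ha
        linarith
      have g1 := hle (T / 4) (2 * T) (by linarith) (by linarith) (by linarith)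
      have g2 := hle (T / 2 / 4) (2 * (T / 2)) (by linarith) (by linarith) (by linarith)
      have g3 := hle (2 * T / 4) (2 * (2 * T)) (by linarith) (by linarith) (by linarith)
      have e1 := G_add hp (T / 4) (T / 2) T
      have e2 := G_add hp (T / 4) T (2 * T)
      rw [show T / 2 / 2 = T / 4 by ring] at h3
      rw [show 2 * T / 2 = T by ring] at h4
      have h7 := le_scale hA h6
      linarith
    have hD := D_small hp hVm hV hA hK
    refine Pool.Agent.W22.QS.qs_dyad c A hA FM hFMm hFM0 ?_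
    have h1 := (half FV hVl).sub hD
    rw [sub_zero] at h1
    refine h1.congr' ?_
    filter_upwards [eventually_ge_atTop (2 * T₁), eventually_ge_atTop 0] with T h2 h3
    rw [← sub_div, dM T h3, dV T h2]
    unfold DD'
    congr 1
    ring

end

end Pool.Agent.L7h13.MX
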