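import Pool.Agent.L7h13.MX.Path

/-!
# Riemann sums
-/

set_option autoImplicit false

open Complex MeasureTheory Set Filter Topology

namespace Pool.Agent.L7h13.MX

open Pool.Agent.W188.QS Pool.Agent.W188.GP Pool.Agent.W188.MZ

noncomputable section

variable {p : ℝ}

lemma near_ratio {u : ℝ → ℝ} (A : ℝ) (hu : ∀ᶠ T : ℝ in atTop, |u T - T| ≤ 1) :
    Tendsto (fun T : ℝ => (u T * Real.log (u T) ^ A) / (T * Real.log T ^ A)) atTop (𝓝 1) := by
  have h1 : Tendsto (fun T : ℝ => u T / T) atTop (𝓝 1) := by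
    rw [tendsto_iff_dist_tendsto_zero]
    refine squeeze_zero' (Eventually.of_forall fun _ => dist_nonneg) ?_ (tendsto_const_nhds.div_atTop tendsto_id : Tendsto (fun T : ℝ => 1 / T) atTop (𝓝 0))
    filter_upwards [hu, eventually_gt_atTop 0] with T h h0
    rw [Real.dist_eq, show u T / T - 1 = (u T - T) / T by field_simp, abs_div, abs_of_pos h0]
    gcongr
  have h2 : Tendsto (fun T : ℝ => Real.log (u T / T) / Real.log T + 1) atTop (𝓝 (0 + 1)) := by
    refine Tendsto.add_const 1 ?_
    have h3 := h1.log one_ne_zero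
    rw [Real.log_one] at h3
    exact h3.div_atTop Real.tendsto_log_atTop
  rw [zero_add] at h2
  have h4 := h2.rpow_const (p := A) (Or.inl one_ne_zero)
  rw [Real.one_rpow] at h4
  have h5 := h1.mul h4
  rw [one_mul] at h5
  refine h5.congr' ?_
  filter_upwards [hu, eventually_gt_atTop 2] with T h h0
  rw [abs_le] at h
  have hT0 : 0 < T := by linarith
  have hu0 : 1 < u T := by linarith
  have hlT : 0 < Real.log T := Real.log_pos (by linarith)
  have hlu : 0 < Real.log (u T) := Real.log_pos hu0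
  have e : Real.log (u T / T) / Real.log T + 1 = Real.log (u T) / Real.log T := by
    rw [Real.log_div (by linarith) hT0.ne']
    field_simp
    ring
  rw [e, Real.div_rpow hlu.le hlT.le]
  field_simp

section nodes

variable {t : ℕ → ℝ} (htt : Tendsto t atTop atTop)

include htt in
lemma ex_gt (x : ℝ) : ∃ n, x < t n := (htt.eventually_gt_atTop x).exists

/-- the first node after `x` -/
def N1 (x : ℝ) : ℕ := Nat.find (ex_gt htt x)

lemma N1_lt (x : ℝ) : x < t (N1 htt x) := Nat.find_spec (ex_gt htt x)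

lemma N1_min {x : ℝ} {m : ℕ} (h : m < N1 htt x) : t m ≤ x := not_lt.1 (Nat.find_min (ex_gt htt x) h)

lemma N1_mono : Monotone (N1 htt) := by
  intro x y hxy
  exact Nat.find_min' _ (hxy.trans_lt (N1_lt htt y))

lemma N1_eq (ht : Monotone t) {x : ℝ} {n : ℕ} (h1 : t n ≤ x) (h2 : x < t (n + 1)) : N1 htt x = n + 1 := by
  have h3 : N1 htt x ≤ n + 1 := Nat.find_min' _ h2
  have h4 : ¬ N1 htt x ≤ n := fun h => absurd (N1_lt htt x) (not_lt.2 ((ht h).trans h1))
  omega

lemma N1_gt (ht : Monotone t) {x : ℝ} {n : ℕ} (h1 : t n ≤ x) : n < N1 htt x := by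
  by_contra h
  push Not at h
  exact absurd (N1_lt htt x) (not_lt.2 ((ht h).trans h1))

lemma N1_tendsto (ht : Monotone t) : Tendsto (N1 htt) atTop atTop := by
  refine tendsto_atTop.2 fun b => ?_
  filter_upwards [eventually_ge_atTop (t b)] with x hx
  exact (N1_gt htt ht hx).le

end nodes

/-- the equivalence for Riemann sums -/
theorem riem (hp : 0 < p) {t : ℕ → ℝ} {s : ℕ → ℂ} (ht : Monotone t) (htt : Tendsto t atTop atTop)
    (hgap : Tendsto (fun n => (t (n + 1) - t n) * Real.log (t n)) atTop (𝓝 0))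
    (hs : Tendsto (fun n => ‖s n - cp (t n)‖ * Real.log (t n)) atTop (𝓝 0)) {A c : ℝ} (hA : 0 ≤ A) :
    Tendsto (fun T : ℝ => G p 0 T / (T * Real.log T ^ A)) atTop (𝓝 c) ↔
      Tendsto (fun N : ℕ => (∑ n ∈ Finset.range N, (t (n + 1) - t n) * ‖riemannZeta (s n)‖ ^ p) /
        (t N * Real.log (t N) ^ A)) atTop (𝓝 c) := by
  set V : ℝ → ℝ := fun x => ‖riemannZeta (s (N1 htt x - 1))‖ ^ p with hVdef
  have hVm : Measurable V :=
    (measurable_of_countable (fun n : ℕ => ‖riemannZeta (s (n - 1))‖ ^ p)).comp (N1_mono htt).measurable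
  have hN := N1_tendsto htt ht
  have hpred : Tendsto (fun x => N1 htt x - 1) atTop atTop := (tendsto_sub_atTop_nat 1).comp hN
  -- the predecessor
  have hpre : ∀ᶠ x : ℝ in atTop, t (N1 htt x - 1) ≤ x ∧ x < t (N1 htt x - 1 + 1) := by
    filter_upwards [hN.eventually_ge_atTop 1] with x hx
    refine ⟨N1_min htt (by omega), ?_⟩
    rw [Nat.sub_add_cancel hx]
    exact N1_lt htt x
  have hgap1 : ∀ᶠ n : ℕ in atTop, t (n + 1) - t n ≤ 1 := by
    filter_upwards [hgap.eventually (gt_mem_nhds one_pos), htt.eventually_ge_atTop (Real.exp 1)] with n h1 h2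
    have h3 : 1 ≤ Real.log (t n) := by
      rwa [Real.le_log_iff_exp_le ((Real.exp_pos 1).trans_le h2)]
    have h4 : 0 ≤ t (n + 1) - t n := sub_nonneg.2 (ht (Nat.le_succ n))
    nlinarith
  have hV : NearV p V := by
    intro ε hε
    filter_upwards [hpre, hpred.eventually (hgap.eventually (gt_mem_nhds (by positivity : 0 < ε / 4))),
      hpred.eventually (hs.eventually (gt_mem_nhds (by positivity : 0 < ε / 4))), hpred.eventually hgap1,
      hpred.eventually (htt.eventually_ge_atTop 3)] with x ⟨h1, h2⟩ h3 h4 h5 h6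
    set n := N1 htt x - 1 with hn
    have hl : 0 < Real.log (t n) := Real.log_pos (by linarith)
    have hlx : 0 < Real.log x := Real.log_pos (by linarith)
    have hlog : Real.log x ≤ 2 * Real.log (t n) := by
      have : Real.log x ≤ Real.log (t n ^ 2) := Real.log_le_log (by linarith) (by nlinarith)
      rwa [Real.log_pow, Nat.cast_ofNat] at this
    have hd : ‖s n - cp x‖ ≤ ε / Real.log x := by
      have e : s n - cp x = (s n - cp (t n)) + (cp (t n) - cp x) := by ring
      have e2 : ‖cp (t n) - cp x‖ ≤ t (n + 1) - t n := by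
        have : cp (t n) - cp x = ((t n - x : ℝ) : ℂ) * I := by unfold cp; push_cast; ring
        rw [this, norm_mul, Complex.norm_I, mul_one, Complex.norm_real, Real.norm_eq_abs, abs_of_nonpos (by linarith)]
        linarith
      rw [le_div_iff₀ hlx]
      have h7 : ‖s n - cp x‖ ≤ ‖s n - cp (t n)‖ + (t (n + 1) - t n) := by
        rw [e]
        exact (norm_add_le _ _).trans (by linarith)
      have h8 : 0 ≤ ‖s n - cp (t n)‖ + (t (n + 1) - t n) := add_nonneg (norm_nonneg _) (by linarith)
      calc ‖s n - cp x‖ * Real.log x ≤ (‖s n - cp (t n)‖ + (t (n + 1) - t n)) * (2 * Real.log (t n)) := by gcongr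
        _ = 2 * (‖s n - cp (t n)‖ * Real.log (t n)) + 2 * ((t (n + 1) - t n) * Real.log (t n)) := by ring
        _ ≤ ε := by linarith
    exact ⟨s n, s n, hd, hd, le_rfl, le_rfl⟩
  obtain ⟨T₁, hT₁, hint, hpos, heq⟩ := equiv hp hVm hV
  rw [heq A c hA]
  have hT₁0 : 0 < T₁ := by linarith
  set F : ℝ → ℝ := fun T => ∫ x in T₁..T, V x with hF
  obtain ⟨n₁, hn₁⟩ := eventually_atTop.1 (htt.eventually_ge_atTop T₁)
  have hiab : ∀ a b, T₁ ≤ a → T₁ ≤ b → IntervalIntegrable V volume a b := fun a b ha hb =>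
    (hint a ha).symm.trans (hint b hb)
  have hone : ∀ n, n₁ ≤ n → ∫ x in (t n)..(t (n + 1)), V x = (t (n + 1) - t n) * ‖riemannZeta (s n)‖ ^ p := by
    intro n hn
    have h1 : ∫ x in (t n)..(t (n + 1)), V x = ∫ _ in (t n)..(t (n + 1)), ‖riemannZeta (s n)‖ ^ p := by
      refine intervalIntegral.integral_congr_ae ?_
      have hne : ∀ᵐ x : ℝ, x ≠ t (n + 1) := by
        rw [ae_iff]; simp
      filter_upwards [hne] with x hx hxI
      rw [uIoc_of_le (ht (Nat.le_succ n))] at hxI
      show ‖riemannZeta (s (N1 htt x - 1))‖ ^ p = _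
      rw [N1_eq htt ht hxI.1.le (lt_of_le_of_ne hxI.2 hx), Nat.add_sub_cancel]
    rw [h1, intervalIntegral.integral_const, smul_eq_mul]
  set S : ℕ → ℝ := fun N => ∑ n ∈ Finset.range N, (t (n + 1) - t n) * ‖riemannZeta (s n)‖ ^ p with hS
  have hsum : ∀ N, n₁ ≤ N → S N = (S n₁ - F (t n₁)) + F (t N) := by
    intro N hN
    induction N, hN using Nat.le_induction with
    | base => ring
    | succ N hN ih =>
      have h1 : S (N + 1) = S N + (t (N + 1) - t N) * ‖riemannZeta (s N)‖ ^ p := Finset.sum_range_succ _ _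
      have h2 : F (t (N + 1)) = F (t N) + ∫ x in (t N)..(t (N + 1)), V x := by
        simp only [hF]
        rw [intervalIntegral.integral_add_adjacent_intervals (hint _ (hn₁ N hN))
          (hiab _ _ (hn₁ N hN) (hn₁ (N + 1) (by omega)))]
      rw [h1, h2, hone N hN, ih]
      ring
  have hden : Tendsto (fun N : ℕ => t N * Real.log (t N) ^ A) atTop atTop := by
    refine tendsto_atTop_mono' _ ?_ htt
    filter_upwards [htt.eventually_ge_atTop (Real.exp 1)] with N hN
    exact le_scale hA hN
  have hS_F : Tendsto (fun N : ℕ => S N / (t N * Real.log (t N) ^ A)) atTop (𝓝 c) ↔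
      Tendsto (fun N : ℕ => F (t N) / (t N * Real.log (t N) ^ A)) atTop (𝓝 c) := by
    have h0 : Tendsto (fun N : ℕ => (S n₁ - F (t n₁)) / (t N * Real.log (t N) ^ A)) atTop (𝓝 0) :=
      tendsto_const_nhds.div_atTop hden
    constructor
    · intro h
      have := h.sub h0
      rw [sub_zero] at this
      refine this.congr' ?_
      filter_upwards [eventually_ge_atTop n₁] with N hN
      rw [← sub_div, hsum N hN]
      congr 1
      ring
    · intro h
      have := h0.add h
      rw [zero_add] at this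
      refine this.congr' ?_
      filter_upwards [eventually_ge_atTop n₁] with N hN
      rw [← add_div, hsum N hN]
  rw [hS_F]
  constructor
  · intro h
    exact h.comp htt
  · intro h
    have hFmono : ∀ a b, T₁ ≤ a → a ≤ b → F a ≤ F b := by
      intro a b ha hab
      have h1 : F b = F a + ∫ x in a..b, V x := by
        simp only [hF]
        rw [intervalIntegral.integral_add_adjacent_intervals (hint _ ha) (hiab _ _ ha (ha.trans hab))]
      have h2 : 0 ≤ ∫ x in a..b, V x := intervalIntegral.integral_nonneg hab fun x hx => hpos x (ha.trans hx.1)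
      linarith
    have hu1 : ∀ᶠ T : ℝ in atTop, |t (N1 htt T - 1) - T| ≤ 1 := by
      filter_upwards [hpre, hpred.eventually hgap1] with T h1 h2
      rw [abs_le]
      constructor <;> linarith [h1.1, h1.2]
    have hu2 : ∀ᶠ T : ℝ in atTop, |t (N1 htt T - 1 + 1) - T| ≤ 1 := by
      filter_upwards [hpre, hpred.eventually hgap1] with T h1 h2
      rw [abs_le]
      constructor <;> linarith [h1.1, h1.2]
    have r1 := (h.comp hpred).mul (near_ratio A hu1)
    have hsucc : Tendsto (fun x => N1 htt x - 1 + 1) atTop atTop := (tendsto_add_atTop_nat 1).comp hpred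
    have r2 := (h.comp hsucc).mul (near_ratio A hu2)
    rw [mul_one] at r1 r2
    refine tendsto_of_tendsto_of_tendsto_of_le_of_le' r1 r2 ?_ ?_
    · filter_upwards [hpre, hpred.eventually (htt.eventually_ge_atTop (max T₁ (Real.exp 1)))] with T h1 h2
      have hT1 : T₁ ≤ t (N1 htt T - 1) := (le_max_left _ _).trans h2
      have hTe : Real.exp 1 ≤ t (N1 htt T - 1) := (le_max_right _ _).trans h2
      have d1 : 0 < t (N1 htt T - 1) * Real.log (t (N1 htt T - 1)) ^ A := (hT₁0.trans_le hT1).trans_le (le_scale hA hTe)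
      have d2 : 0 < T * Real.log T ^ A := (hT₁0.trans_le (hT1.trans h1.1)).trans_le (le_scale hA (hTe.trans h1.1))
      simp only [Function.comp_def]
      rw [div_mul_div_cancel₀ d1.ne']
      gcongr
      exact hFmono _ _ hT1 h1.1
    · filter_upwards [hpre, hpred.eventually (htt.eventually_ge_atTop (max T₁ (Real.exp 1)))] with T h1 h2
      have hT1 : T₁ ≤ t (N1 htt T - 1) := (le_max_left _ _).trans h2
      have hTe : Real.exp 1 ≤ t (N1 htt T - 1) := (le_max_right _ _).trans h2
      have hT1' : T₁ ≤ t (N1 htt T - 1 + 1) := hT1.trans (h1.1.trans h1.2.le)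
      have hTe' : Real.exp 1 ≤ t (N1 htt T - 1 + 1) := hTe.trans (h1.1.trans h1.2.le)
      have d1 : 0 < t (N1 htt T - 1 + 1) * Real.log (t (N1 htt T - 1 + 1)) ^ A :=
        (hT₁0.trans_le hT1').trans_le (le_scale hA hTe')
      have d2 : 0 < T * Real.log T ^ A := (hT₁0.trans_le (hT1.trans h1.1)).trans_le (le_scale hA (hTe.trans h1.1))
      simp only [Function.comp_def]
      rw [div_mul_div_cancel₀ d1.ne']
      gcongr
      exact hFmono _ _ (hT1.trans h1.1) h1.2.le

end

end Pool.Agent.L7h13.MX
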