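import Pool.Agent.L7h13.MX.Osc

/-!
# Stability of the moments under changes at the scale `ε / log T`, for functions between two values of zeta
-/

set_option autoImplicit false

open Complex MeasureTheory Set Filter Topology

namespace Pool.Agent.L7h13.MX

open Pool.Agent.W188.QS Pool.Agent.W188.GP Pool.Agent.W188.MZ

noncomputable section

/-- `v` is between two values of `|ζ|^p` at points with distance at most `r` from `1/2 + it` -/
def Btw (p r t v : ℝ) : Prop :=
  ∃ s s' : ℂ, ‖s - cp t‖ ≤ r ∧ ‖s' - cp t‖ ≤ r ∧ ‖riemannZeta s‖ ^ p ≤ v ∧ v ≤ ‖riemannZeta s'‖ ^ p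

lemma Btw.mono {p r r' t v : ℝ} (h : Btw p r t v) (hr : r ≤ r') : Btw p r' t v := by
  obtain ⟨s, s', h1, h2, h3, h4⟩ := h
  exact ⟨s, s', h1.trans hr, h2.trans hr, h3, h4⟩

lemma Btw.nonneg {p r t v : ℝ} (h : Btw p r t v) : 0 ≤ v := by
  obtain ⟨s, s', h1, h2, h3, h4⟩ := h
  exact (by positivity : 0 ≤ ‖riemannZeta s‖ ^ p).trans h3

/-- local maximal inequality and stability, all exponents -/
theorem stabV {p : ℝ} (hp : 0 < p) : ∃ C T₀ : ℝ, 0 < C ∧ 400 ≤ T₀ ∧ ∀ T a b : ℝ, T₀ ≤ T → T ≤ a → a ≤ b → b ≤ 8 * T →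
    (∃ W : ℝ → ℝ, Continuous W ∧ (∀ t ∈ Icc a b, ∀ s : ℂ, ‖s - cp t‖ ≤ 8 / Real.log T → ‖riemannZeta s‖ ^ p ≤ W t) ∧
      ∫ t in a..b, W t ≤ C * RH p T a b) ∧
    ∀ (e : ℝ) (V : ℝ → ℝ), 0 ≤ e → e ≤ 1 → Measurable V → (∀ t ∈ Icc a b, Btw p (e / Real.log T) t (V t)) →
      IntervalIntegrable V volume a b ∧
      |(∫ t in a..b, V t) - ∫ t in a..b, ZZ t ^ p| ≤ C * e ^ (min 1 p) * RH p T a b := by
  obtain ⟨C, T₀, hC, hT₀, h⟩ := maj_int hp
  refine ⟨max 1 p * C + C, T₀, by positivity, hT₀, fun T a b hT ha hab hb => ?_⟩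
  obtain ⟨F, hF, W, hWc, hFW, hWi⟩ := h T a b hT ha hab hb
  have hT0 : 0 < T := by linarith
  have hL : 0 < Real.log T := Real.log_pos (by linarith)
  have hI0 : 0 ≤ RH p T a b := by
    unfold RH
    have h1 : 0 ≤ ∫ t in (a - 4 * Real.log T)..(b + 4 * Real.log T), ZZ t ^ p :=
      intervalIntegral.integral_nonneg (by linarith) fun t _ => Pool.Agent.W917.MZ.CMP.zzp_nonneg p t
    have h2 : 0 ≤ (b - a + 1) * T ^ (-(p / 4)) := mul_nonneg (by linarith) (by positivity)
    linarith
  have hWi' : ∫ t in a..b, W t ≤ C * RH p T a b := hWi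
  constructor
  · refine ⟨W, hWc, fun t ht s hs => ?_, hWi'.trans ?_⟩
    · exact (Real.rpow_le_rpow (norm_nonneg _) ((hF t ht).bd s hs) hp.le).trans (hFW t ht)
    · refine mul_le_mul_of_nonneg_right ?_ hI0
      have : 0 ≤ max 1 p * C := by positivity
      linarith
  · intro e V he0 he1 hVm hV
    have hr8 : e / Real.log T ≤ 8 / Real.log T := by gcongr; linarith
    have hbd : ∀ t ∈ Icc a b, V t ≤ W t := fun t ht => by
      obtain ⟨s, s', h1, h2, h3, h4⟩ := hV t ht
      exact h4.trans ((Real.rpow_le_rpow (norm_nonneg _) ((hF t ht).bd s' (h2.trans hr8)) hp.le).trans (hFW t ht))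
    have hi : IntervalIntegrable V volume a b := by
      rw [intervalIntegrable_iff_integrableOn_Icc_of_le hab]
      refine Integrable.mono' (hWc.continuousOn.integrableOn_compact isCompact_Icc) hVm.aestronglyMeasurable ?_
      filter_upwards [ae_restrict_mem measurableSet_Icc] with t ht
      rw [Real.norm_of_nonneg (hV t ht).nonneg]
      exact hbd t ht
    have hz : IntervalIntegrable (fun t => ZZ t ^ p) volume a b :=
      (Pool.Agent.W917.MZ.CMP.zzp_cont hp).intervalIntegrable _ _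
    refine ⟨hi, ?_⟩
    rw [← intervalIntegral.integral_sub hi hz]
    have h1 : ‖∫ t in a..b, (V t - ZZ t ^ p)‖ ≤ ∫ t in a..b, max 1 p * (e ^ (min 1 p) * W t) := by
      refine intervalIntegral.norm_integral_le_of_norm_le hab (Eventually.of_forall fun t ht => ?_)
        ((continuous_const.mul (continuous_const.mul hWc)).intervalIntegrable _ _)
      have ht' : t ∈ Icc a b := ⟨ht.1.le, ht.2⟩
      obtain ⟨s, s', h1, h2, h3, h4⟩ := hV t ht'
      have d1 := maj_diff (hF t ht') hL hp he0 he1 h1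
      have d2 := maj_diff (hF t ht') hL hp he0 he1 h2
      have d3 : max 1 p * (e ^ (min 1 p) * F t ^ p) ≤ max 1 p * (e ^ (min 1 p) * W t) := by
        gcongr
        exact hFW t ht'
      rw [Real.norm_eq_abs, abs_le]
      rw [abs_le] at d1 d2
      constructor
      · linarith [d1.1]
      · linarith [d2.2]
    rw [intervalIntegral.integral_const_mul, intervalIntegral.integral_const_mul, Real.norm_eq_abs] at h1
    refine h1.trans ?_
    have h2 : 0 ≤ e ^ (min 1 p) := by positivity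
    calc max 1 p * (e ^ (min 1 p) * ∫ t in a..b, W t) ≤ max 1 p * (e ^ (min 1 p) * (C * RH p T a b)) := by gcongr
      _ = max 1 p * C * e ^ (min 1 p) * RH p T a b := by ring
      _ ≤ _ := by
        gcongr
        linarith

end

end Pool.Agent.L7h13.MX
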